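import Pool.Agent.Helper7.EC_E.GoalsM

/-!
# MP_ecc237_nt, Part E, packet MY
-/

set_option autoImplicit false

namespace EC237.ZE.PkMY

theorem Hs_succ (a n : ℕ) : Hs a (n + 1) = Hs a n + 1 / ((n:ℝ) + 1) ^ a :=
  Finset.sum_range_succ _ _

theorem sq_identity (n : ℕ) : Hs 1 n ^ 2 = 2 * En n + Hs 2 n := by
  induction n with
  | zero => simp [Hs, En]
  | succ n ih =>
    have e : En (n + 1) = En n + Hs 1 n / ((n:ℝ) + 1) := Finset.sum_range_succ _ _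
    have hn : ((n:ℝ) + 1) ≠ 0 := by positivity
    rw [Hs_succ, Hs_succ, e, pow_one]
    have e2 : (Hs 1 n + 1 / ((n:ℝ) + 1)) ^ 2 =
        Hs 1 n ^ 2 + 2 * (Hs 1 n / ((n:ℝ) + 1)) + 1 / ((n:ℝ) + 1) ^ 2 := by
      field_simp
      ring
    rw [e2, ih]
    ring

/-- exchange of the order of summation -/
theorem exch {e : ℕ → ℝ} (he : ∀ m, 0 ≤ e m) (hs : Summable e)
    (hs' : Summable (fun m => e m * Hs 1 (m + 1))) :
    HasSum (fun n : ℕ => ((∑' m, e m) - ∑ m ∈ Finset.range n, e m) / ((n:ℝ) + 1))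
      (∑' m, e m * Hs 1 (m + 1)) := by
  classical
  let G : ℕ × ℕ → ℝ := fun p => if p.2 ≤ p.1 then e p.1 / ((p.2:ℝ) + 1) else 0
  have hG0 : ∀ p, 0 ≤ G p := fun p => by
    show 0 ≤ if p.2 ≤ p.1 then e p.1 / ((p.2:ℝ) + 1) else 0
    split_ifs
    · exact div_nonneg (he _) (by positivity)
    · exact le_refl _
  have hin : ∀ m, HasSum (fun n => G (m, n)) (e m * Hs 1 (m + 1)) := by
    intro m
    have h1 : HasSum (fun n => G (m, n)) (∑ n ∈ Finset.range (m + 1), G (m, n)) := by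
      refine hasSum_sum_of_ne_finset_zero fun n hn => ?_
      rw [Finset.mem_range] at hn
      exact if_neg (by simp only; omega)
    have h2 : ∑ n ∈ Finset.range (m + 1), G (m, n) = e m * Hs 1 (m + 1) := by
      unfold Hs
      rw [Finset.mul_sum]
      refine Finset.sum_congr rfl fun n hn => ?_
      rw [Finset.mem_range] at hn
      rw [pow_one, mul_one_div]
      exact if_pos (by simp only; omega)
    rwa [h2] at h1
  have hG : Summable G := by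
    rw [summable_prod_of_nonneg hG0]
    refine ⟨fun m => (hin m).summable, ?_⟩
    refine hs'.congr fun m => ?_
    exact (hin m).tsum_eq.symm
  have hsum : HasSum G (∑' m, e m * Hs 1 (m + 1)) := by
    have h1 := hG.hasSum
    have h2 := h1.prod_fiberwise hin
    rwa [← h2.tsum_eq] at h1
  have hsw : HasSum (fun p : ℕ × ℕ => G (p.2, p.1)) (∑' m, e m * Hs 1 (m + 1)) :=
    (Equiv.hasSum_iff (Equiv.prodComm ℕ ℕ)).2 hsum
  refine hsw.prod_fiberwise fun n => ?_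
  show HasSum (fun m => if n ≤ m then e m / ((n:ℝ) + 1) else 0) _
  have h1 : HasSum (fun m => if m ∈ Finset.range n then e m else 0)
      (∑ m ∈ Finset.range n, e m) := by
    have h2 : HasSum (fun m => if m ∈ Finset.range n then e m else 0)
        (∑ m ∈ Finset.range n, if m ∈ Finset.range n then e m else 0) :=
      hasSum_sum_of_ne_finset_zero fun m hm => if_neg hm
    rwa [Finset.sum_congr rfl fun m hm => if_pos hm] at h2
  have h3 := (hs.hasSum.sub h1).div_const ((n:ℝ) + 1)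
  have hfun : (fun m => if n ≤ m then e m / ((n:ℝ) + 1) else 0) =
      fun m => (e m - if m ∈ Finset.range n then e m else 0) / ((n:ℝ) + 1) := by
    funext m
    by_cases h : n ≤ m
    · rw [if_pos h, if_neg (by rw [Finset.mem_range]; omega), sub_zero]
    · rw [if_neg h, if_pos (by rw [Finset.mem_range]; omega), sub_self, zero_div]
  rw [hfun]
  exact h3

theorem thm (h1 : EC237.ZE.G_MSUM) (h2 : EC237.ZE.G_MA) : EC237.ZE.G_MY := by
  obtain ⟨s4, s5, s13, s14, s23, -, s311, -, sq3, hnn⟩ := h1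
  have hn : ∀ m : ℕ, ((m:ℝ) + 1) ≠ 0 := fun m => by positivity
  -- the two sequences
  have a1 : ∀ m : ℕ, 1 / ((m:ℝ) + 1) ^ 4 * Hs 1 (m + 1) =
      Hs 1 m / ((m:ℝ) + 1) ^ 4 + 1 / ((m:ℝ) + 1) ^ 5 := fun m => by
    rw [Hs_succ, pow_one]
    have := hn m
    field_simp
  have a2 : ∀ m : ℕ, Hs 1 m / ((m:ℝ) + 1) ^ 3 * Hs 1 (m + 1) =
      2 * (En m / ((m:ℝ) + 1) ^ 3) + Hs 2 m / ((m:ℝ) + 1) ^ 3 + Hs 1 m / ((m:ℝ) + 1) ^ 4 :=
      fun m => by
    rw [Hs_succ, pow_one]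
    have h := sq_identity m
    have := hn m
    field_simp
    linear_combination ((m:ℝ) + 1) * h
  have t1 : HasSum (fun m : ℕ => 1 / ((m:ℝ) + 1) ^ 4 * Hs 1 (m + 1)) (z41 + zeta5) := by
    have h := s14.hasSum.add s5.hasSum
    rw [show (fun m : ℕ => 1 / ((m:ℝ) + 1) ^ 4 * Hs 1 (m + 1)) = fun m : ℕ =>
      Hs 1 m / ((m:ℝ) + 1) ^ 4 + 1 / ((m:ℝ) + 1) ^ 5 from funext a1]
    exact h
  have t2 : HasSum (fun m : ℕ => Hs 1 m / ((m:ℝ) + 1) ^ 3 * Hs 1 (m + 1))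
      (2 * z311 + z32 + z41) := by
    have h := ((s311.hasSum.mul_left 2).add s23.hasSum).add s14.hasSum
    rw [show (fun m : ℕ => Hs 1 m / ((m:ℝ) + 1) ^ 3 * Hs 1 (m + 1)) = fun m : ℕ =>
      2 * (En m / ((m:ℝ) + 1) ^ 3) + Hs 2 m / ((m:ℝ) + 1) ^ 3 + Hs 1 m / ((m:ℝ) + 1) ^ 4 from
      funext a2]
    exact h
  have u1 := exch (e := fun m : ℕ => 1 / ((m:ℝ) + 1) ^ 4) (fun m => by positivity) s4 t1.summable
  have u2 := exch (e := fun m : ℕ => Hs 1 m / ((m:ℝ) + 1) ^ 3)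
    (fun m => div_nonneg (hnn m).1 (by positivity)) s13 t2.summable
  rw [t1.tsum_eq] at u1
  rw [t2.tsum_eq] at u2
  have u := (u2.mul_left 8).sub (u1.mul_left 2)
  have hval : 8 * (2 * z311 + z32 + z41) - 2 * (z41 + zeta5) =
      6 * z41 - 2 * zeta5 + 16 * z311 + 8 * z32 := by ring
  rw [hval] at u
  have hfun : (fun n : ℕ => (2 * Hs 4 n - 8 * Yn n) / ((n:ℝ) + 1)) = fun n : ℕ =>
      8 * (((∑' m : ℕ, Hs 1 m / ((m:ℝ) + 1) ^ 3) -
        ∑ m ∈ Finset.range n, Hs 1 m / ((m:ℝ) + 1) ^ 3) / ((n:ℝ) + 1)) -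
      2 * (((∑' m : ℕ, 1 / ((m:ℝ) + 1) ^ 4) -
        ∑ m ∈ Finset.range n, 1 / ((m:ℝ) + 1) ^ 4) / ((n:ℝ) + 1)) := by
    funext n
    have h3 : (∑' m : ℕ, 1 / ((m:ℝ) + 1) ^ 4) = 4 * ∑' m : ℕ, Hs 1 m / ((m:ℝ) + 1) ^ 3 := h2
    rw [h3]
    unfold Yn Hs
    ring
  show HasSum (fun n : ℕ => (2 * Hs 4 n - 8 * Yn n) / ((n:ℝ) + 1)) _
  rw [hfun]
  exact u

end EC237.ZE.PkMY
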