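import Pool.Agent.Helper7.EC_E.GoalsR

/-!
# MP_ecc237_nt, Part E, packet NX
-/

set_option autoImplicit false

namespace EC237.ZE.PkNX

theorem coeff_gser (a α : ℂ) (p : ℕ) :
    PowerSeries.coeff p (gser a α) = α ^ p * a ^ (p + 1) := PowerSeries.coeff_mk _ _

theorem c0 (a b α β : ℂ) : PowerSeries.coeff 0 (gser a α * gser b β) = a * b := by
  rw [PowerSeries.coeff_mul, Finset.Nat.sum_antidiagonal_eq_sum_range_succ_mk]
  simp [Finset.sum_range_succ, coeff_gser]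

theorem c1 (a b α β : ℂ) : PowerSeries.coeff 1 (gser a α * gser b β) =
    a * (β * b ^ 2) + α * a ^ 2 * b := by
  rw [PowerSeries.coeff_mul, Finset.Nat.sum_antidiagonal_eq_sum_range_succ_mk]
  simp [Finset.sum_range_succ, coeff_gser]

theorem c2 (a b α β : ℂ) : PowerSeries.coeff 2 (gser a α * gser b β) =
    a * (β ^ 2 * b ^ 3) + α * a ^ 2 * (β * b ^ 2) + α ^ 2 * a ^ 3 * b := by
  rw [PowerSeries.coeff_mul, Finset.Nat.sum_antidiagonal_eq_sum_range_succ_mk]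
  simp [Finset.sum_range_succ, coeff_gser]

theorem KA_inv {z : ℝ} (hz : 0 < z) (k : ℤ × ℤ) :
    (KA ((z⁻¹:ℝ):ℂ) k)⁻¹ = -(Complex.I * z * (Xz z k)⁻¹) := by
  have hz' : (z:ℂ) ≠ 0 := by exact_mod_cast hz.ne'
  have e : KA ((z⁻¹:ℝ):ℂ) k = Complex.I * (z:ℂ)⁻¹ * Xz z k := by
    unfold KA Xz
    push_cast
    have : Complex.I * (z:ℂ)⁻¹ * ((k.2:ℂ) - Complex.I * (k.1:ℂ) * z) =
      Complex.I * (k.2:ℂ) * (z:ℂ)⁻¹ - (Complex.I * Complex.I) * (k.1:ℂ) * ((z:ℂ)⁻¹ * z) := by ring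
    rw [this, Complex.I_mul_I, inv_mul_cancel₀ hz']
    ring
  rw [e, mul_inv, mul_inv, inv_inv, Complex.inv_I]
  ring

theorem KB_inv {z : ℝ} (hz : 0 < z) (k : ℤ × ℤ) :
    (KB ((z⁻¹:ℝ):ℂ) k)⁻¹ = Complex.I * z * (Yz z k)⁻¹ := by
  have hz' : (z:ℂ) ≠ 0 := by exact_mod_cast hz.ne'
  have e : KB ((z⁻¹:ℝ):ℂ) k = (-Complex.I) * (z:ℂ)⁻¹ * Yz z k := by
    unfold KB Yz
    push_cast
    have : (-Complex.I) * (z:ℂ)⁻¹ * ((k.2:ℂ) + Complex.I * (k.1:ℂ) * z) =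
      -(Complex.I * (k.2:ℂ) * (z:ℂ)⁻¹) - (Complex.I * Complex.I) * (k.1:ℂ) * ((z:ℂ)⁻¹ * z) := by
      ring
    rw [this, Complex.I_mul_I, inv_mul_cancel₀ hz']
    ring
  rw [e, mul_inv, mul_inv, inv_inv, inv_neg, Complex.inv_I, neg_neg]

theorem thm : EC237.ZE.G_NX := by
  intro z hz k l _ _
  have hI2 : Complex.I ^ 2 = -1 := Complex.I_sq
  have hI3 : Complex.I ^ 3 = -Complex.I := by rw [pow_succ, hI2]; ring
  have hI4 : Complex.I ^ 4 = 1 := Complex.I_pow_four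
  unfold XX As Bs
  simp only [map_sub, c0, c1, c2, KA_inv hz, KB_inv hz, Int.cast_one, Int.cast_zero,
    Int.cast_neg]
  refine ⟨?_, ?_, ?_, ?_⟩
  · ring_nf
    simp only [hI2, hI3, hI4]
    ring
  · ring_nf
    simp only [hI2, hI3, hI4]
    ring
  · ring_nf
    simp only [hI2, hI3, hI4]
    ring
  · ring_nf
    simp only [hI2, hI3, hI4]
    ring

end EC237.ZE.PkNX
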